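import Mathlib

/-! The size of the next prime, the classes of the cofactor, numbers with a given radical. -/

set_option autoImplicit false

namespace Pool.Agent.P.MP_026e5e_nt.Fifth

open Finset

/-- Sum of the divisors. -/
def sg (n : ℕ) : ℕ := ∑ d ∈ n.divisors, d

theorem sg_mul {a b : ℕ} (h : a.Coprime b) : sg (a * b) = sg a * sg b :=
  Nat.Coprime.sum_divisors_mul h

theorem sg_le (n : ℕ) : sg n ≤ n.divisors.card * n := by
  simpa [sg] using Finset.sum_le_card_nsmul n.divisors (fun d => d) n fun d hd =>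
    Nat.divisor_le hd

theorem le_sg {n : ℕ} (hn : n ≠ 0) : n ≤ sg n :=
  Finset.single_le_sum (f := fun d => d) (fun _ _ => Nat.zero_le _) (Nat.mem_divisors_self n hn)

theorem dickson {A B p : ℕ} {k a : ℤ} (hA : A ≠ 0) (hB : B ≠ 0) (hp : p.Prime) (hpB : p ∣ B)
    (hmin : ∀ q : ℕ, q.Prime → q ∣ B → p ≤ q)
    (h : (sg A : ℤ) * sg (B ^ 2) = k * A * B ^ 2 + a) :
    p ≤ 2 * (a.natAbs + 1) * A * (A.divisors.card * (B ^ 2).divisors.card) := by
  set D := B ^ 2 with hD
  have hD0 : D ≠ 0 := pow_ne_zero _ hB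
  have hpB' : p ≤ B := Nat.le_of_dvd (Nat.pos_of_ne_zero hB) hpB
  have hp2 := hp.two_le
  set s := ∑ d ∈ D.properDivisors, d with hs
  have h1 : sg D = s + D := Nat.sum_divisors_eq_sum_properDivisors_add_self
  have h2 : p * s ≤ D.divisors.card * D := by
    rw [hs, Finset.mul_sum]
    refine (Finset.sum_le_card_nsmul _ _ D fun d hd => ?_).trans ?_
    · obtain ⟨⟨f, hf⟩, hlt⟩ := Nat.mem_properDivisors.1 hd
      have hf1 : f ≠ 1 := by rintro rfl; omega
      have hf0 : f ≠ 0 := by rintro rfl; omega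
      have h3 := hmin _ (Nat.minFac_prime hf1) ((Nat.minFac_prime hf1).dvd_of_dvd_pow
        ((Nat.minFac_dvd f).trans (Dvd.intro_left d hf.symm)))
      have h4 := Nat.minFac_le (Nat.pos_of_ne_zero hf0)
      rw [hf, mul_comm]
      exact Nat.mul_le_mul_left _ (h3.trans h4)
    · exact Nat.mul_le_mul_right _ (Finset.card_le_card Nat.properDivisors_subset_divisors)
  have h3 : B ≤ s := Finset.single_le_sum (f := fun d => d) (fun _ _ => Nat.zero_le _)
    (Nat.mem_properDivisors.2 ⟨dvd_pow_self B two_ne_zero, by rw [hD]; nlinarith⟩)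
  have h4 : B ≤ D := by rw [hD]; nlinarith
  have c1 : 1 ≤ A.divisors.card := Finset.card_pos.2 ⟨1, Nat.one_mem_divisors.2 hA⟩
  have c2 : 1 ≤ D.divisors.card := Finset.card_pos.2 ⟨1, Nat.one_mem_divisors.2 hD0⟩
  have c3 : 1 ≤ A := Nat.pos_of_ne_zero hA
  have c4 := le_sg hA
  have c5 := sg_le A
  have c6 : 1 ≤ A * (A.divisors.card * D.divisors.card) :=
    Nat.mul_pos c3 (Nat.mul_pos c1 c2)
  have ha : a ≤ a.natAbs := Int.le_natAbs
  have ha' : -a ≤ a.natAbs := by omega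
  have hDz : ((B : ℤ)) ^ 2 = D := by rw [hD]; push_cast; ring
  rw [h1, hDz] at h
  push_cast at h
  by_cases hs1 : p ≤ 2 * a.natAbs
  · rw [mul_assoc (2 * (a.natAbs + 1))]
    exact (hs1.trans (by omega)).trans (Nat.le_mul_of_pos_right _ c6)
  have hk : (sg A : ℤ) + 1 ≤ k * A := by
    by_contra hk
    have h5 : k * A * D ≤ sg A * D := mul_le_mul_of_nonneg_right (by omega) (by positivity)
    have h6 : (s : ℤ) ≤ sg A * s := le_mul_of_one_le_left (by positivity) (by omega)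
    have h7 : (s : ℤ) ≤ a := by nlinarith
    omega
  have h5 : ((sg A : ℤ) + 1) * D ≤ k * A * D := mul_le_mul_of_nonneg_right hk (by positivity)
  have h6 : (D : ℤ) ≤ 2 * (sg A * s) := by
    have : (2 * a.natAbs : ℤ) ≤ D := by omega
    nlinarith
  have h7 : D ≤ 2 * (sg A * s) := by exact_mod_cast h6
  have h8 : p * D ≤ 2 * (A.divisors.card * A) * D.divisors.card * D :=
    calc p * D ≤ p * (2 * (sg A * s)) := Nat.mul_le_mul_left _ h7
      _ = 2 * sg A * (p * s) := by ring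
      _ ≤ 2 * (A.divisors.card * A) * (D.divisors.card * D) := by gcongr
      _ = _ := by ring
  have h9 := Nat.le_of_mul_le_mul_right h8 (Nat.pos_of_ne_zero hD0)
  calc p ≤ 2 * 1 * A * (A.divisors.card * D.divisors.card) := h9.trans_eq (by ring)
    _ ≤ _ := by gcongr; omega

theorem dvd_mul_gcd {q u v y : ℤ} (h1 : q ∣ y * u) (h2 : q ∣ y * v) : q ∣ y * Int.gcd u v := by
  rw [Int.gcd_eq_gcd_ab, mul_add, ← mul_assoc, ← mul_assoc]
  exact (h1.mul_right _).add (h2.mul_right _)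

theorem same_class {q K a B0 B B' : ℤ} (hq : q ≠ 0) (h0 : q ∣ K * B0 ^ 2 + a)
    (h1 : q ∣ K * B ^ 2 + a) (h2 : q ∣ K * B' ^ 2 + a)
    (hg : Int.gcd q (B - B0) = Int.gcd q (B' - B0)) : q ∣ 2 * a ^ 3 * (B - B') := by
  have g1 : (Int.gcd K q : ℤ) ∣ a :=
    (dvd_add_right ((Int.gcd_dvd_left K q).mul_right _)).1 ((Int.gcd_dvd_right K q).trans h0)
  have g2 : (Int.gcd B0 q : ℤ) ∣ a :=
    (dvd_add_right (((Int.gcd_dvd_left B0 q).trans (dvd_pow_self B0 two_ne_zero)).mul_left _)).1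
      ((Int.gcd_dvd_right B0 q).trans h0)
  have key : ∀ (X e : ℤ), q ∣ K * X ^ 2 + a → q = Int.gcd q (X - B0) * e → e ∣ a * (X + B0) := by
    intro X e hX he
    have a1 : q ∣ (X + B0) * (X - B0) * K := by
      rw [show (X + B0) * (X - B0) * K = K * X ^ 2 + a - (K * B0 ^ 2 + a) by ring]
      exact hX.sub h0
    have a2 := (dvd_mul_gcd a1 (dvd_mul_left q _)).trans (mul_dvd_mul_left _ g1)
    have a3 : q ∣ a * (X + B0) * (X - B0) := by
      rwa [show a * (X + B0) * (X - B0) = (X + B0) * (X - B0) * a by ring]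
    have a4 := dvd_mul_gcd (dvd_mul_left q _) a3
    have a5 : (Int.gcd q (X - B0) : ℤ) ≠ 0 := fun h => hq (by rw [he, h, zero_mul])
    rw [mul_comm (a * (X + B0))] at a4
    exact (mul_dvd_mul_iff_left a5).1 (he ▸ a4)
  obtain ⟨e, he⟩ := Int.gcd_dvd_left q (B - B0)
  have e1 := key B e h1 he
  have e2 := key B' e h2 (hg ▸ he)
  set d : ℤ := ((Int.gcd q (B - B0) : ℕ) : ℤ) with hd
  have d1 : d ∣ B - B0 := Int.gcd_dvd_right _ _
  have d2 : d ∣ B' - B0 := by rw [hd, hg]; exact Int.gcd_dvd_right _ _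
  have d3 : d ∣ B - B' := by
    rw [show B - B' = B - B0 - (B' - B0) by ring]; exact d1.sub d2
  have e3 : e ∣ a * (B - B') := by
    rw [show a * (B - B') = a * (B + B0) - a * (B' + B0) by ring]; exact e1.sub e2
  have b1 : q ∣ a * (B - B') * d := by rw [he, mul_comm d]; exact mul_dvd_mul_right e3 _
  have b2 : q ∣ a * (B - B') * e := by rw [he]; exact mul_dvd_mul_right (d3.mul_left _) _
  have b3 := dvd_mul_gcd b1 b2
  have b4 : (Int.gcd d e : ℤ) ∣ 2 * a * B0 := by
    rw [show 2 * a * B0 = a * (B + B0) - a * (B - B0) by ring]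
    exact ((Int.gcd_dvd_right d e).trans e1).sub (((Int.gcd_dvd_left d e).trans d1).mul_left _)
  have b5 : (Int.gcd d e : ℤ) ∣ 2 * a * q :=
    ((Int.gcd_dvd_left d e).trans (Int.gcd_dvd_left _ _)).mul_left _
  have b6 := (dvd_mul_gcd b4 b5).trans (mul_dvd_mul_left _ g2)
  rw [show 2 * a ^ 3 * (B - B') = a * (B - B') * (2 * a * a) by ring]
  exact b3.trans (mul_dvd_mul_left _ b6)

theorem classes {q : ℕ} (H : ℕ) (hq : q ≠ 0) (K : ℤ) {a : ℤ} (ha : a ≠ 0) :
    ((range (H + 1)).filter fun B : ℕ => (q : ℤ) ∣ K * B ^ 2 + a).card ≤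
      q.divisors.card * (2 * a.natAbs ^ 3 * H / q + 1) := by
  set T := (range (H + 1)).filter fun B : ℕ => (q : ℤ) ∣ K * B ^ 2 + a with hT
  rcases T.eq_empty_or_nonempty with h | ⟨B0, hB0⟩
  · rw [h]; simp
  set M := 2 * a.natAbs ^ 3 with hM
  have hM0 : 0 < M := by have := Int.natAbs_pos.2 ha; positivity
  rw [← Finset.card_range (M * H / q + 1), ← Finset.card_product]
  refine Finset.card_le_card_of_injOn (fun B : ℕ => (Int.gcd q (B - B0 : ℤ), M * B / q))
    (fun B hB => ?_) fun B hB B' hB' hh => ?_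
  · have h1 := mem_range.1 (mem_filter.1 (mem_coe.1 hB)).1
    refine mem_coe.2 (mem_product.2 ⟨Nat.mem_divisors.2 ⟨?_, hq⟩, mem_range.2 ?_⟩)
    · exact Int.natCast_dvd_natCast.1 (Int.gcd_dvd_left _ _)
    · exact Nat.lt_succ_of_le (Nat.div_le_div_right (Nat.mul_le_mul_left _ (by omega)))
  · have h1 := same_class (Int.natCast_ne_zero.2 hq) (mem_filter.1 hB0).2
      (mem_filter.1 (mem_coe.1 hB)).2 (mem_filter.1 (mem_coe.1 hB')).2 (congrArg Prod.fst hh)
    have h2 : M * B / q = M * B' / q := congrArg Prod.snd hh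
    have h3 : (q : ℤ) ∣ (M * B : ℕ) - (M * B' : ℕ) := by
      rw [hM]
      push_cast
      rw [← mul_sub, ← abs_pow, ← dvd_abs, abs_mul, abs_mul, abs_abs, ← abs_mul, ← abs_mul,
        dvd_abs]
      exact h1
    have h4 := Nat.div_add_mod (M * B) q
    have h5 := Nat.div_add_mod (M * B') q
    have h6 := Nat.mod_lt (M * B) (Nat.pos_of_ne_zero hq)
    have h7 := Nat.mod_lt (M * B') (Nat.pos_of_ne_zero hq)
    rw [h2] at h4
    have h8 := Int.eq_zero_of_abs_lt_dvd h3 (by rw [abs_lt]; constructor <;> omega)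
    exact Nat.eq_of_mul_eq_mul_left hM0 (by omega)

theorem smooth_card (x R K : ℕ) (hR : R ≠ 0) (hK : K ≠ 0) (y : ℕ)
    (hy : ∀ z : ℕ, z ^ K ≤ x → z ≤ y) :
    ((Icc 1 x).filter fun A => A.primeFactors ⊆ R.primeFactors).card ≤
      y * (R ^ K).divisors.card := by
  rw [show y = (Icc 1 y).card by simp, ← Finset.card_product]
  refine Finset.card_le_card_of_injOn (fun A => (Nat.floorRoot K A, A / Nat.floorRoot K A ^ K))
    (fun A hA => ?_) fun A _ A' _ hh => ?_
  · obtain ⟨h1, h2⟩ := mem_filter.1 (mem_coe.1 hA)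
    have h3 := mem_Icc.1 h1
    have h4 : Nat.floorRoot K A ≠ 0 := Nat.floorRoot_ne_zero.2 ⟨hK, by omega⟩
    have h5 : Nat.floorRoot K A ^ K ∣ A := Nat.floorRoot_pow_dvd
    refine mem_coe.2 (mem_product.2 ⟨mem_Icc.2 ⟨Nat.pos_of_ne_zero h4,
      hy _ ((Nat.le_of_dvd h3.1 h5).trans h3.2)⟩, Nat.mem_divisors.2 ⟨?_, pow_ne_zero _ hR⟩⟩)
    have h6 : A / Nat.floorRoot K A ^ K ≠ 0 :=
      (Nat.div_pos (Nat.le_of_dvd h3.1 h5) (Nat.pos_of_ne_zero (pow_ne_zero _ h4))).ne'
    rw [← Nat.factorization_le_iff_dvd h6 (pow_ne_zero _ hR), Nat.factorization_div h5]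
    intro p
    simp only [Nat.factorization_pow, Nat.factorization_floorRoot, Finsupp.smul_apply,
      smul_eq_mul, Finsupp.floorDiv_apply, Nat.floorDiv_eq_div, Finsupp.coe_tsub, Pi.sub_apply]
    by_cases hp : p ∈ A.primeFactors
    · have h7 : R.factorization p ≠ 0 :=
        Finsupp.mem_support_iff.1 (by rw [Nat.support_factorization]; exact h2 hp)
      have h8 := Nat.div_add_mod (A.factorization p) K
      have h9 := Nat.mod_lt (A.factorization p) (Nat.pos_of_ne_zero hK)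
      have h10 : K ≤ K * R.factorization p := Nat.le_mul_of_pos_right _ (Nat.pos_of_ne_zero h7)
      omega
    · have h7 : A.factorization p = 0 :=
        Finsupp.notMem_support_iff.1 (by rwa [Nat.support_factorization])
      rw [h7]; simp
  · have h1 : Nat.floorRoot K A = Nat.floorRoot K A' := congrArg Prod.fst hh
    have h2 : A / Nat.floorRoot K A ^ K = A' / Nat.floorRoot K A' ^ K := congrArg Prod.snd hh
    rw [← Nat.mul_div_cancel' (Nat.floorRoot_pow_dvd (n := K) (a := A)), h2, h1,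
      Nat.mul_div_cancel' Nat.floorRoot_pow_dvd]

end Pool.Agent.P.MP_026e5e_nt.Fifth
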