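import Mathlib

/-! A finite lemma on the logarithms of the prime power components. -/

set_option autoImplicit false

namespace Pool.Agent.P.MP_026e5e_nt.Fifth

open Finset

theorem cross (Q : Finset ℕ) (f : ℕ → ℝ) (y θ : ℝ) (h0 : y ≤ θ) (h1 : θ < y + ∑ q ∈ Q, f q) :
    ∃ p ∈ Q, y + ∑ q ∈ Q.filter (· < p), f q ≤ θ ∧
      θ < y + ∑ q ∈ Q.filter (· < p), f q + f p := by
  induction Q using Finset.induction_on_max with
  | empty => simp at h1; linarith
  | insert m Q hm ih =>
    have hmQ : m ∉ Q := fun h => lt_irrefl _ (hm m h)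
    by_cases h : θ < y + ∑ q ∈ Q, f q
    · obtain ⟨p, hp, h2⟩ := ih h
      have e : (insert m Q).filter (· < p) = Q.filter (· < p) := by
        rw [Finset.filter_insert, if_neg (not_lt.2 (hm p hp).le)]
      exact ⟨p, mem_insert_of_mem hp, by rw [e]; exact h2⟩
    · have e : (insert m Q).filter (· < m) = Q := by
        rw [Finset.filter_insert, if_neg (lt_irrefl _), Finset.filter_true_of_mem hm]
      rw [Finset.sum_insert hmQ] at h1
      exact ⟨m, mem_insert_self _ _, by rw [e]; constructor <;> linarith⟩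

theorem comb (P : Finset ℕ) (β α : ℕ → ℝ) (α0 t δ : ℝ) (hα0 : 0 ≤ α0) (ht : 0 ≤ t) (hδ : 0 ≤ δ)
    (hβ : ∀ p ∈ P, 0 ≤ β p) (hmono : ∀ p ∈ P, ∀ q ∈ P, p ≤ q → β p ≤ β q)
    (hα : ∀ p ∈ P, α p = 2 * β p ∨ 4 * β p ≤ α p)
    (htot : α0 + ∑ p ∈ P, α p = 10 * t)
    (hD : ∀ p ∈ P, β p ≤ α0 + ∑ q ∈ P.filter (· < p), α q + δ) :
    ∃ I ⊆ P, ∑ p ∈ I, β p ≤ 2 * t + δ ∧
      3 * t - δ ≤ 3 / 2 * α0 + ∑ p ∈ I, (3 / 2 * α p - β p) := by
  by_contra hc
  push Not at hc
  set u : ℕ → ℝ := fun p => 3 / 2 * α p - β p with hu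
  have hα2 : ∀ p ∈ P, 2 * β p ≤ α p := fun p hp => by
    have := hβ p hp
    rcases hα p hp with h | h <;> linarith
  have huα : ∀ p ∈ P, α p ≤ u p := fun p hp => by have := hα2 p hp; simp only [hu]; linarith
  have hsu : ∀ S ⊆ P, 2 * ∑ p ∈ S, β p ≤ ∑ p ∈ S, u p := fun S hS => by
    rw [Finset.mul_sum]
    exact Finset.sum_le_sum fun p hp => (hα2 p (hS hp)).trans (huα p (hS hp))
  have hsα : ∀ S ⊆ P, ∑ p ∈ S, α p ≤ ∑ p ∈ S, u p := fun S hS =>
    Finset.sum_le_sum fun p hp => huα p (hS hp)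
  set g : ℝ := t / 2 + 3 / 2 * δ with hg
  set Sm := P.filter fun p => β p ≤ g with hSm
  set Bg := P.filter fun p => ¬ β p ≤ g with hBg
  have hSmP : Sm ⊆ P := Finset.filter_subset _ _
  have hBgP : Bg ⊆ P := Finset.filter_subset _ _
  set c : ℝ := 3 / 2 * α0 + ∑ p ∈ Sm, u p with hcdef
  have hA : ∀ S ⊆ Bg, ∑ p ∈ S, β p ≤ 2 * t + δ → ∑ p ∈ S, u p + c < 3 * t - δ := by
    intro S hS hSβ
    have key : ∀ U : Finset ℕ, U ⊆ Sm →
        3 / 2 * α0 + ∑ p ∈ S, u p + ∑ p ∈ U, u p < 3 * t - δ := by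
      intro U
      induction U using Finset.induction_on with
      | empty => intro _; simpa using hc S (hS.trans hBgP) hSβ
      | insert p U hpU ih =>
        intro hU
        have h1 := ih ((Finset.subset_insert _ _).trans hU)
        have hdis : Disjoint S (insert p U) := by
          rw [Finset.disjoint_left]
          intro q hq hq'
          exact (Finset.mem_filter.1 (hS hq)).2 (Finset.mem_filter.1 (hU hq')).2
        have h2 := hsu S (hS.trans hBgP)
        have h3 := hsu U (((Finset.subset_insert _ _).trans hU).trans hSmP)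
        have h4 := (Finset.mem_filter.1 (hU (mem_insert_self _ _))).2
        have h5 := hc (S ∪ insert p U) (Finset.union_subset (hS.trans hBgP) (hU.trans hSmP))
          (by rw [Finset.sum_union hdis, Finset.sum_insert hpU]; linarith)
        rw [Finset.sum_union hdis] at h5
        linarith
    have := key Sm subset_rfl
    linarith
  have hpre : ∀ p ∈ Bg, α0 + ∑ q ∈ P.filter (· < p), α q ≤
      c + ∑ q ∈ Bg.filter (· < p), u q := by
    intro p hp
    have hp' := Finset.mem_filter.1 hp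
    have e : P.filter (· < p) = Sm ∪ Bg.filter (· < p) := by
      ext q
      simp only [hSm, hBg, Finset.mem_union, Finset.mem_filter]
      constructor
      · rintro ⟨h1, h2⟩
        by_cases h : β q ≤ g
        · exact Or.inl ⟨h1, h⟩
        · exact Or.inr ⟨⟨h1, h⟩, h2⟩
      · rintro (⟨h1, h2⟩ | ⟨⟨h1, -⟩, h2⟩)
        · refine ⟨h1, ?_⟩
          by_contra h
          exact hp'.2 ((hmono p hp'.1 q h1 (not_lt.1 h)).trans h2)
        · exact ⟨h1, h2⟩
    have hdis : Disjoint Sm (Bg.filter (· < p)) := by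
      rw [Finset.disjoint_left]
      intro q hq hq'
      exact (Finset.mem_filter.1 (Finset.mem_filter.1 hq').1).2 (Finset.mem_filter.1 hq).2
    have h1 := hsα _ (Finset.filter_subset (· < p) P)
    rw [e, Finset.sum_union hdis, Finset.sum_union hdis] at h1
    rw [e, Finset.sum_union hdis]
    linarith
  have hheavy : 2 * t + δ < 0 + ∑ p ∈ Bg, β p := by
    by_contra h
    have h1 := hA Bg subset_rfl (by linarith)
    have h2 := Finset.sum_filter_add_sum_filter_not P (fun p => β p ≤ g) u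
    have h3 := hsα P subset_rfl
    linarith
  obtain ⟨m, hm, hm1, hm2⟩ := cross Bg β 0 (2 * t + δ) (by linarith) hheavy
  have hmP := hBgP hm
  set S0 := Bg.filter (· < m) with hS0
  have hS0B : S0 ⊆ Bg := Finset.filter_subset _ _
  have hl0 := hA S0 hS0B (by linarith)
  by_cases hb : β m ≤ 2 * t + δ
  · obtain ⟨q, hq, hq1, hq2⟩ := cross S0 β (β m) (2 * t + δ) hb (by linarith)
    set S1 := S0.filter (· < q) with hS1
    have hS1B : S1 ⊆ Bg := (Finset.filter_subset _ _).trans hS0B
    have hqm : q < m := (Finset.mem_filter.1 hq).2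
    have hmS1 : m ∉ S1 := fun h => lt_irrefl _ (Finset.mem_filter.1 (Finset.mem_filter.1 h).1).2
    have h1 := hA (insert m S1) (Finset.insert_subset hm hS1B)
      (by rw [Finset.sum_insert hmS1]; exact hq1)
    rw [Finset.sum_insert hmS1] at h1
    have h2 := hsu S1 (hS1B.trans hBgP)
    have h3 := (hα2 m hmP).trans (huα m hmP)
    have h4 := hmono q (hBgP (hS0B hq)) m hmP hqm.le
    obtain ⟨p1, hp1, hmin⟩ := Finset.exists_min_image Bg id ⟨m, hm⟩
    have e1 : Bg.filter (· < p1) = ∅ :=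
      Finset.filter_eq_empty_iff.2 fun r hr => not_lt.2 (hmin r hr)
    have h5 := hpre p1 hp1
    rw [e1, Finset.sum_empty] at h5
    have h6 := hD p1 (hBgP hp1)
    have h7 : g < β p1 := not_le.1 (Finset.mem_filter.1 hp1).2
    rcases (show p1 ≤ q from hmin q (hS0B hq)).eq_or_lt with h8 | h8
    · subst h8
      have h9 : 0 ≤ ∑ p ∈ S1, β p := Finset.sum_nonneg fun p hp => hβ p (hBgP (hS1B hp))
      linarith
    · have h9 : β p1 ≤ ∑ p ∈ S1, β p :=
        Finset.single_le_sum (f := β) (fun p hp => hβ p (hBgP (hS1B hp)))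
          (Finset.mem_filter.2 ⟨Finset.mem_filter.2 ⟨hp1, h8.trans hqm⟩, h8⟩)
      linarith
  · have h1 := hpre m hm
    have h2 := hD m hmP
    have h3 := Finset.sum_filter_add_sum_filter_not P (· < m) α
    set Rm := P.filter fun q => ¬ q < m with hRm
    have hmR : m ∈ Rm := Finset.mem_filter.2 ⟨hmP, lt_irrefl _⟩
    have h4 := Finset.add_sum_erase Rm α hmR
    have h5 : ∀ q ∈ Rm.erase m, 2 * β m ≤ α q := fun q hq => by
      have h := Finset.mem_filter.1 (Finset.mem_of_mem_erase hq)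
      have := hmono m hmP q h.1 (not_lt.1 h.2)
      have := hα2 q h.1
      linarith
    have h6 := hβ m hmP
    have h7 : ∀ q ∈ Rm.erase m, 0 ≤ α q := fun q hq => by have := h5 q hq; linarith
    rcases (Rm.erase m).eq_empty_or_nonempty with h8 | ⟨q, hq⟩
    · rw [h8, Finset.sum_empty] at h4
      rcases hα m hmP with h9 | h9 <;> linarith
    · have h9 := Finset.single_le_sum h7 hq
      have := h5 q hq
      have := hα2 m hmP
      linarith

end Pool.Agent.P.MP_026e5e_nt.Fifth
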