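import Pool.Agent.P.MP_026e5e_nt.Fifth.Split
import Pool.Agent.P.MP_7aad9f_nt.ExcDiv

/-! The count. -/

set_option autoImplicit false

namespace Pool.Agent.P.MP_026e5e_nt.Fifth

open Finset

theorem smooth_le (η : ℝ) (hη : 0 < η) : ∃ C : ℝ, 0 < C ∧ ∀ x R : ℕ, R ∈ Icc 1 x →
    (((Icc 1 x).filter fun A => A.primeFactors ⊆ (2 * R).primeFactors).card : ℝ) ≤
      C * ((x : ℝ) ^ η) ^ 2 := by
  obtain ⟨K, hK⟩ := exists_nat_one_div_lt hη
  obtain ⟨C, hC, h⟩ := MP_7aad9f_nt.Exc.card_divisors_le (η / (K + 1 : ℕ)) (by positivity)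
  refine ⟨C * 2 ^ η, by positivity, fun x R hR => ?_⟩
  obtain ⟨h1, h2⟩ := mem_Icc.1 hR
  have hx : (1 : ℝ) ≤ x := by exact_mod_cast h1.trans h2
  have h3 := smooth_card x (2 * R) (K + 1) (by omega) (by omega) ⌊(x : ℝ) ^ η⌋₊ fun z hz => by
    refine Nat.le_floor ?_
    have a1 : (z : ℝ) ^ (K + 1) ≤ x := by exact_mod_cast hz
    calc (z : ℝ) = ((z : ℝ) ^ (K + 1)) ^ (((K + 1 : ℕ) : ℝ)⁻¹) :=
          (Real.pow_rpow_inv_natCast (by positivity) (by omega)).symm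
      _ ≤ (x : ℝ) ^ (((K + 1 : ℕ) : ℝ)⁻¹) := Real.rpow_le_rpow (by positivity) a1 (by positivity)
      _ ≤ _ := Real.rpow_le_rpow_of_exponent_le hx (by push_cast; rw [← one_div]; exact hK.le)
  have h4 := h ((2 * R) ^ (K + 1)) (pow_ne_zero _ (by omega))
  rw [Nat.cast_pow, ← Real.rpow_natCast, ← Real.rpow_mul (by positivity),
    mul_div_cancel₀ _ (by positivity)] at h4
  have h5 : ((2 * R : ℕ) : ℝ) ^ η ≤ 2 ^ η * (x : ℝ) ^ η := by
    rw [← Real.mul_rpow (by positivity) (by positivity)]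
    exact Real.rpow_le_rpow (by positivity) (by exact_mod_cast (by omega : 2 * R ≤ 2 * x)) hη.le
  have h6 : (⌊(x : ℝ) ^ η⌋₊ : ℝ) ≤ (x : ℝ) ^ η := Nat.floor_le (by positivity)
  calc _ ≤ (⌊(x : ℝ) ^ η⌋₊ : ℝ) * (((2 * R) ^ (K + 1)).divisors.card : ℝ) := by exact_mod_cast h3
    _ ≤ (x : ℝ) ^ η * (C * (2 ^ η * (x : ℝ) ^ η)) := by
        refine mul_le_mul h6 (h4.trans ?_) (by positivity) (by positivity)
        gcongr
    _ = _ := by ring

theorem harm_le (η : ℝ) (hη : 0 < η) (x : ℕ) (hx : 1 ≤ x) :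
    ∑ R ∈ Icc 1 x, (1 / R : ℝ) ≤ (1 + 1 / η) * (x : ℝ) ^ η := by
  have h1 := harmonic_le_one_add_log x
  rw [harmonic_eq_sum_Icc] at h1
  push_cast at h1
  have h2 := Real.log_le_rpow_div (Nat.cast_nonneg x) hη
  have h3 : (1 : ℝ) ≤ (x : ℝ) ^ η := Real.one_le_rpow (by exact_mod_cast hx) hη.le
  simp only [one_div]
  rw [div_eq_mul_inv] at h2
  linarith

theorem main (a : ℤ) (ha : a ≠ 0) (ε : ℝ) (hε : 0 < ε) : ∃ C : ℝ, ∀ x : ℕ, 1 ≤ x →
    (((Icc 1 x).filter fun n : ℕ => Odd (sg n) ∧ (n : ℤ) ∣ (sg n : ℤ) - a).card : ℝ) ≤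
      C * (x : ℝ) ^ (1 / 5 + ε) := by
  set η := ε / 6 with hηd
  have hη : 0 < η := by positivity
  obtain ⟨C, hC, hd⟩ := MP_7aad9f_nt.Exc.card_divisors_le (η / 2) (by positivity)
  obtain ⟨C', hC', hs⟩ := smooth_le η hη
  set c : ℝ := 2 * (a.natAbs + 1) * C with hc
  set M := 2 * a.natAbs ^ 3 with hM
  refine ⟨C' * (3 * c) * (C * (M + 1) * c) * (1 + 1 / η), fun x hx => ?_⟩
  have hx1 : (1 : ℝ) ≤ x := by exact_mod_cast hx
  set E := (x : ℝ) ^ η with hE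
  have hE1 : 1 ≤ E := Real.one_le_rpow hx1 hη.le
  have hdd : ∀ m : ℕ, m ≠ 0 → m ≤ x ^ 2 → (m.divisors.card : ℝ) ≤ C * E := fun m h0 h1 => by
    refine (hd m h0).trans (mul_le_mul_of_nonneg_left ?_ hC.le)
    calc (m : ℝ) ^ (η / 2) ≤ ((x : ℝ) ^ 2) ^ (η / 2) :=
          Real.rpow_le_rpow (by positivity) (by exact_mod_cast h1) (by positivity)
      _ = E := by
          rw [← Real.rpow_natCast, ← Real.rpow_mul (by positivity), hE]
          congr 1; push_cast; ring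
  have hC1 : 1 ≤ C * E := by simpa using hdd 1 one_ne_zero (Nat.one_le_pow _ _ hx)
  have hab : (0 : ℝ) ≤ a.natAbs := Nat.cast_nonneg _
  have hΔ1 : 1 ≤ c * E := by rw [hc, mul_assoc]; nlinarith
  set Y := (x : ℝ) ^ (1 / 5 : ℝ) * (c * E) with hY
  set N := ⌊c * E⌋₊ with hN
  set RR := (Icc 1 x).filter fun R : ℕ => (R : ℝ) ≤ Y with hRR
  set AA := fun R : ℕ => (Icc 1 x).filter fun A => A.primeFactors ⊆ (2 * R).primeFactors with hAA
  set T := fun (R A : ℕ) (k : ℤ) => (range (⌊Y * A / R⌋₊ + 1)).filter fun B : ℕ =>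
    (sg A : ℤ) ∣ k * A * B ^ 2 + a with hT
  have cover : ((Icc 1 x).filter fun n : ℕ => Odd (sg n) ∧ (n : ℤ) ∣ (sg n : ℤ) - a) ⊆
      RR.biUnion fun R => (AA R).biUnion fun A => (Icc (-N : ℤ) N).biUnion fun k =>
        (T R A k).image fun B => A * B ^ 2 := by
    intro n hn
    obtain ⟨h1, ho, k, hk⟩ := mem_filter.1 hn
    obtain ⟨h1, h2⟩ := mem_Icc.1 h1
    have h0 : n ≠ 0 := by omega
    have h3 := hdd n h0 (h2.trans (Nat.le_self_pow two_ne_zero x))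
    have hk' : (sg n : ℤ) = k * n + a := by linarith
    obtain ⟨A, B, R, e, hcop, hR, hA, b1, b2⟩ := split (Δ := c * E) h0 ho hk'
      (by rw [hc, mul_assoc _ C]; gcongr)
    have hR0 : 0 < R := Nat.pos_of_dvd_of_pos hR h1
    have hA0 : 0 < A := Nat.pos_of_dvd_of_pos (Dvd.intro _ e) h1
    have b3 : (n : ℝ) ^ (1 / 5 : ℝ) * (c * E) ≤ Y := by
      rw [hY]; gcongr
    refine mem_biUnion.2 ⟨R, mem_filter.2 ⟨mem_Icc.2 ⟨hR0, (Nat.le_of_dvd h1 hR).trans h2⟩,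
      b1.trans b3⟩, mem_biUnion.2 ⟨A, mem_filter.2 ⟨mem_Icc.2 ⟨hA0,
      (Nat.le_of_dvd h1 (Dvd.intro _ e)).trans h2⟩, hA⟩, mem_biUnion.2 ⟨k, ?_,
      mem_image.2 ⟨B, mem_filter.2 ⟨mem_range.2 (Nat.lt_succ_of_le (Nat.le_floor ?_)), ?_⟩, e⟩⟩⟩⟩
    · have a1 : k.natAbs * n ≤ (n.divisors.card + a.natAbs) * n := by
        have a2 := sg_le n
        have a3 : k.natAbs * n = ((sg n : ℤ) - a).natAbs := by
          rw [hk, Int.natAbs_mul, Int.natAbs_natCast, mul_comm]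
        have a4 : a.natAbs ≤ a.natAbs * n := Nat.le_mul_of_pos_right _ h1
        rw [a3, add_mul]
        omega
      have a2 : (k.natAbs : ℝ) ≤ n.divisors.card + a.natAbs := by
        exact_mod_cast Nat.le_of_mul_le_mul_right a1 h1
      have a3 : k.natAbs ≤ N := Nat.le_floor (by rw [hc, mul_assoc]; nlinarith)
      rw [mem_Icc]
      omega
    · rw [le_div_iff₀ (Nat.cast_pos.2 hR0)]
      exact b2.trans (mul_le_mul_of_nonneg_right b3 (Nat.cast_nonneg _))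
    · rw [mul_assoc, ← Nat.cast_pow, ← Nat.cast_mul, e, ← hk', ← e, sg_mul hcop, Nat.cast_mul]
      exact dvd_mul_right _ _
  have hY0 : 0 ≤ Y := by positivity
  have t1 : ∀ R ∈ RR, ∀ A ∈ AA R, ∀ k : ℤ,
      ((T R A k).card : ℝ) ≤ C * E * ((M + 1) * Y) * (1 / R) := by
    intro R hR A hA k
    obtain ⟨h1, h2⟩ := mem_filter.1 hR
    have h3 : (0 : ℝ) < R := Nat.cast_pos.2 (mem_Icc.1 h1).1
    obtain ⟨h4, h5⟩ := mem_Icc.1 (mem_filter.1 hA).1
    have h6 := le_sg (show A ≠ 0 by omega)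
    have h7 : sg A ≤ x ^ 2 := (sg_le A).trans (by
      rw [pow_two]; exact Nat.mul_le_mul ((Nat.card_divisors_le_self A).trans h5) h5)
    have h8 := classes ⌊Y * A / R⌋₊ (show sg A ≠ 0 by omega) (k * A) ha
    have h9 : ((M * ⌊Y * A / R⌋₊ / sg A : ℕ) : ℝ) ≤ M * (Y / R) := by
      refine Nat.cast_div_le.trans ?_
      rw [div_le_iff₀ (Nat.cast_pos.2 (by omega)), Nat.cast_mul, mul_assoc (M : ℝ)]
      have h11 : (0 : ℝ) ≤ Y * A / R := by positivity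
      refine mul_le_mul_of_nonneg_left ((Nat.floor_le h11).trans ?_) (Nat.cast_nonneg M)
      rw [mul_div_right_comm]
      gcongr
    have h10 : 1 ≤ Y / R := (one_le_div h3).2 h2
    calc ((T R A k).card : ℝ) ≤ (sg A).divisors.card * ((M * ⌊Y * A / R⌋₊ / sg A : ℕ) + 1 : ℝ) := by
          exact_mod_cast h8
      _ ≤ C * E * (M * (Y / R) + Y / R) := by
          gcongr
          exact hdd _ (by omega) h7
      _ = _ := by ring
  have t2 : (((Icc (-N : ℤ) N).card : ℕ) : ℝ) ≤ 3 * (c * E) := by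
    have h1 : (N : ℝ) ≤ c * E := Nat.floor_le (by positivity)
    have h2 : (Icc (-N : ℤ) N).card = 2 * N + 1 := by rw [Int.card_Icc]; omega
    rw [h2]; push_cast; linarith
  have t3 : ∀ R ∈ RR, (((AA R).biUnion fun A => (Icc (-N : ℤ) N).biUnion fun k =>
      (T R A k).image fun B => A * B ^ 2).card : ℝ) ≤
      C' * E ^ 2 * (3 * (c * E) * (C * E * ((M + 1) * Y))) * (1 / R) := by
    intro R hR
    refine (Nat.cast_le.2 card_biUnion_le).trans ?_
    rw [Nat.cast_sum]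
    refine (sum_le_card_nsmul _ _ (3 * (c * E) * (C * E * ((M + 1) * Y) * (1 / R)))
      fun A hA => ?_).trans ?_
    · refine (Nat.cast_le.2 card_biUnion_le).trans ?_
      rw [Nat.cast_sum]
      refine (sum_le_card_nsmul _ _ _ fun k _ =>
        (Nat.cast_le.2 card_image_le).trans (t1 R hR A hA k)).trans ?_
      rw [nsmul_eq_mul]
      exact mul_le_mul_of_nonneg_right t2 (by positivity)
    · rw [nsmul_eq_mul]
      exact (mul_le_mul_of_nonneg_right (hs x R (mem_filter.1 hR).1) (by positivity)).trans_eq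
        (by ring)
  have t4 : ∑ R ∈ RR, (1 / R : ℝ) ≤ (1 + 1 / η) * E :=
    (sum_le_sum_of_subset_of_nonneg (filter_subset _ _) fun _ _ _ => by positivity).trans
      (harm_le η hη x hx)
  have t5 : (x : ℝ) ^ (1 / 5 + ε) = (x : ℝ) ^ (1 / 5 : ℝ) * E ^ 6 := by
    rw [Real.rpow_add (by positivity), hE, ← Real.rpow_natCast, ← Real.rpow_mul (by positivity)]
    congr 2; rw [hηd]; push_cast; ring
  refine (Nat.cast_le.2 ((card_le_card cover).trans card_biUnion_le)).trans ?_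
  rw [Nat.cast_sum]
  refine (sum_le_sum t3).trans ?_
  rw [← mul_sum]
  refine (mul_le_mul_of_nonneg_left t4 (by positivity)).trans_eq ?_
  rw [t5, hY]
  ring

end Pool.Agent.P.MP_026e5e_nt.Fifth
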