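import Pool.Agent.P.MP_026e5e_nt.Fifth.Arith
import Pool.Agent.P.MP_026e5e_nt.Fifth.Comb

/-! Every solution has a unitary divisor of small radical with a small square cofactor. -/

set_option autoImplicit false

namespace Pool.Agent.P.MP_026e5e_nt.Fifth

open Finset

theorem even_fac {n p : ℕ} (hn : n ≠ 0) (ho : Odd (sg n)) (hp : p ∈ n.primeFactors.erase 2) :
    Even (n.factorization p) := by
  obtain ⟨h2, h3⟩ := mem_erase.1 hp
  have hpp := Nat.prime_of_mem_primeFactors h3
  have h4 := Nat.ordProj_mul_ordCompl_eq_self n p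
  rw [← h4, sg_mul ((Nat.coprime_ordCompl hpp hn).pow_left _)] at ho
  have h5 := (Nat.odd_mul.1 ho).1
  rw [sg, Nat.sum_divisors_prime_pow hpp, Finset.odd_sum_iff_odd_card_odd,
    Finset.filter_true_of_mem fun i _ => (hpp.odd_of_ne_two h2).pow, card_range] at h5
  exact Nat.not_odd_iff_even.1 (Nat.odd_add_one.1 h5)

/-- The unitary divisor attached to a set of odd primes. -/
def ua (n : ℕ) (I : Finset ℕ) : ℕ := 2 ^ n.factorization 2 * ∏ p ∈ I, p ^ n.factorization p

/-- The square root of the cofactor. -/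
def ub (n : ℕ) (I : Finset ℕ) : ℕ :=
  ∏ p ∈ n.primeFactors.erase 2 \ I, p ^ (n.factorization p / 2)

theorem pr_of {n p : ℕ} (hp : p ∈ n.primeFactors.erase 2) : p.Prime :=
  Nat.prime_of_mem_primeFactors (mem_of_mem_erase hp)

theorem ua_top {n : ℕ} (hn : n ≠ 0) : ua n (n.primeFactors.erase 2) = n := by
  conv_rhs => rw [← Nat.prod_factorization_pow_eq_self hn]
  rw [Finsupp.prod, Nat.support_factorization, ua]
  by_cases h : 2 ∈ n.primeFactors
  · exact Finset.mul_prod_erase _ (fun p => p ^ n.factorization p) h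
  · rw [Finset.erase_eq_of_notMem h, Finsupp.notMem_support_iff.1
      (by rwa [Nat.support_factorization]), pow_zero, one_mul]

theorem ua_ub {n : ℕ} (hn : n ≠ 0) (ho : Odd (sg n)) {I : Finset ℕ}
    (hI : I ⊆ n.primeFactors.erase 2) : ua n I * ub n I ^ 2 = n := by
  conv_rhs => rw [← ua_top hn]
  rw [ua, ua, ub, mul_assoc, ← Finset.prod_sdiff hI, mul_comm (∏ p ∈ I, _), ← Finset.prod_pow]
  congr 2
  refine Finset.prod_congr rfl fun p hp => ?_
  rw [← pow_mul, Nat.div_two_mul_two_of_even (even_fac hn ho (mem_sdiff.1 hp).1)]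

theorem dvd_ub {n q : ℕ} {I : Finset ℕ} (hq : q.Prime) (h : q ∣ ub n I) :
    q ∈ n.primeFactors.erase 2 \ I := by
  obtain ⟨p, hp, h1⟩ := (Prime.dvd_finsetProd_iff hq.prime _).1 h
  rwa [(Nat.prime_dvd_prime_iff_eq hq (pr_of (mem_sdiff.1 hp).1)).1 (hq.dvd_of_dvd_pow h1)]

theorem dvd_ua {n q : ℕ} {I : Finset ℕ} (hI : I ⊆ n.primeFactors.erase 2) (hq : q.Prime)
    (h : q ∣ ua n I) : q = 2 ∨ q ∈ I := by
  rcases (Nat.Prime.dvd_mul hq).1 h with h | h
  · exact Or.inl ((Nat.prime_dvd_prime_iff_eq hq Nat.prime_two).1 (hq.dvd_of_dvd_pow h))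
  · obtain ⟨p, hp, h1⟩ := (Prime.dvd_finsetProd_iff hq.prime _).1 h
    rw [(Nat.prime_dvd_prime_iff_eq hq (pr_of (hI hp))).1 (hq.dvd_of_dvd_pow h1)]
    exact Or.inr hp

theorem cop {n : ℕ} {I : Finset ℕ} (hI : I ⊆ n.primeFactors.erase 2) :
    (ua n I).Coprime (ub n I ^ 2) := by
  refine Nat.Coprime.pow_right _ (Nat.coprime_of_dvd fun q hq h1 h2 => ?_)
  have h3 := mem_sdiff.1 (dvd_ub hq h2)
  rcases dvd_ua hI hq h1 with h | h
  · exact (mem_erase.1 h3.1).1 h
  · exact h3.2 h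

theorem log_ua {n : ℕ} {I : Finset ℕ} (hI : I ⊆ n.primeFactors.erase 2) :
    Real.log (ua n I) = n.factorization 2 * Real.log 2 +
      ∑ p ∈ I, n.factorization p * Real.log p := by
  have h : ∀ p ∈ I, ((p : ℝ) ^ n.factorization p) ≠ 0 := fun p hp =>
    pow_ne_zero _ (Nat.cast_ne_zero.2 (pr_of (hI hp)).ne_zero)
  rw [ua]
  push_cast
  rw [Real.log_mul (by positivity) (Finset.prod_ne_zero_iff.2 h), Real.log_prod h, Real.log_pow]
  simp only [Real.log_pow]

theorem split {n : ℕ} {k a : ℤ} {Δ : ℝ} (hn : n ≠ 0) (ho : Odd (sg n))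
    (h : (sg n : ℤ) = k * n + a) (hΔ : 2 * (a.natAbs + 1) * (n.divisors.card : ℝ) ≤ Δ) :
    ∃ A B R : ℕ, A * B ^ 2 = n ∧ A.Coprime (B ^ 2) ∧ R ∣ n ∧
      A.primeFactors ⊆ (2 * R).primeFactors ∧ (R : ℝ) ≤ (n : ℝ) ^ (1 / 5 : ℝ) * Δ ∧
      (B : ℝ) * R ≤ (n : ℝ) ^ (1 / 5 : ℝ) * Δ * A := by
  set P := n.primeFactors.erase 2 with hP
  have hn1 : (1 : ℝ) ≤ n := by exact_mod_cast Nat.pos_of_ne_zero hn
  have c1 : (1 : ℝ) ≤ n.divisors.card := by
    exact_mod_cast Finset.card_pos.2 ⟨1, Nat.one_mem_divisors.2 hn⟩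
  have hΔ1 : 1 ≤ Δ := by
    have : (0 : ℝ) ≤ a.natAbs := Nat.cast_nonneg _
    nlinarith
  have h0 : ∀ I ⊆ P, ua n I ≠ 0 ∧ ub n I ≠ 0 := fun I hI => by
    have h1 := ua_ub hn ho hI
    constructor <;> intro h2 <;> rw [h2] at h1 <;> simp at h1 <;> exact hn h1.symm
  have hp0 : ∀ p ∈ P, (0 : ℝ) < p := fun p hp => Nat.cast_pos.2 (pr_of hp).pos
  obtain ⟨I, hI, h1, h2⟩ := comb P (fun p => Real.log p) (fun p => n.factorization p * Real.log p)
    (n.factorization 2 * Real.log 2) (Real.log n / 10) (Real.log Δ)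
    (by have := Real.log_nonneg one_le_two; positivity)
    (by have := Real.log_nonneg hn1; positivity) (Real.log_nonneg hΔ1)
    (fun p _ => Real.log_natCast_nonneg p)
    (fun p hp q _ hpq => Real.log_le_log (hp0 p hp) (by exact_mod_cast hpq))
    (fun p hp => by
      obtain ⟨j, hj⟩ := even_fac hn ho hp
      have h3 : n.factorization p ≠ 0 := Finsupp.mem_support_iff.1
        (by rw [Nat.support_factorization]; exact mem_of_mem_erase hp)
      by_cases h4 : n.factorization p = 2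
      · left; rw [h4]; norm_num
      · right
        exact mul_le_mul_of_nonneg_right (by exact_mod_cast (by omega : 4 ≤ n.factorization p))
          (Real.log_natCast_nonneg p))
    (by rw [← log_ua subset_rfl, ua_top hn]; ring)
    (fun p hp => by
      have hI : P.filter (· < p) ⊆ P := filter_subset _ _
      set J := P.filter (· < p) with hJ
      have e := ua_ub hn ho hI
      have hc := cop hI
      have h3 : n.factorization p ≠ 0 := Finsupp.mem_support_iff.1
        (by rw [Nat.support_factorization]; exact mem_of_mem_erase hp)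
      obtain ⟨j, hj⟩ := even_fac hn ho hp
      have h4 : p ∣ ub n J := (dvd_pow_self p (by omega)).trans (Finset.dvd_prod_of_mem
        (fun p => p ^ (n.factorization p / 2)) (mem_sdiff.2 ⟨hp, by simp [hJ]⟩))
      have h5 := dickson (k := k) (a := a) (h0 J hI).1 (h0 J hI).2 (pr_of hp) h4
        (fun q hq hd => by
          have h6 := mem_sdiff.1 (dvd_ub hq hd)
          by_contra h7
          exact h6.2 (mem_filter.2 ⟨h6.1, not_le.1 h7⟩))
        (by rw [← Nat.cast_mul, ← sg_mul hc, e, h, mul_assoc, ← Nat.cast_pow, ← Nat.cast_mul, e])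
      rw [← hc.card_divisors_mul, e] at h5
      have h6 : (0 : ℝ) < ua n J := Nat.cast_pos.2 (Nat.pos_of_ne_zero (h0 J hI).1)
      rw [← log_ua hI, ← Real.log_mul h6.ne' (by positivity)]
      refine Real.log_le_log (hp0 p hp) ?_
      have h7 : (p : ℝ) ≤ 2 * (a.natAbs + 1) * ua n J * n.divisors.card := by exact_mod_cast h5
      calc (p : ℝ) ≤ ua n J * (2 * (a.natAbs + 1) * n.divisors.card) := h7.trans_eq (by ring)
        _ ≤ _ := by gcongr)
  have hR : (0 : ℝ) < (∏ p ∈ I, p : ℕ) := by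
    push_cast; exact Finset.prod_pos fun p hp => hp0 p (hI hp)
  have hRl : Real.log (∏ p ∈ I, p : ℕ) = ∑ p ∈ I, Real.log p := by
    push_cast; exact Real.log_prod fun p hp => (hp0 p (hI hp)).ne'
  have hA : (0 : ℝ) < ua n I := Nat.cast_pos.2 (Nat.pos_of_ne_zero (h0 I hI).1)
  have hB : (0 : ℝ) < ub n I := Nat.cast_pos.2 (Nat.pos_of_ne_zero (h0 I hI).2)
  have hY : (0 : ℝ) < (n : ℝ) ^ (1 / 5 : ℝ) := by positivity
  have hYl : Real.log ((n : ℝ) ^ (1 / 5 : ℝ) * Δ) = 1 / 5 * Real.log n + Real.log Δ := by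
    rw [Real.log_mul hY.ne' (by positivity), Real.log_rpow (by positivity)]
  refine ⟨ua n I, ub n I, ∏ p ∈ I, p, ua_ub hn ho hI, cop hI, ?_, fun q hq => ?_, ?_, ?_⟩
  · exact (Finset.prod_dvd_prod_of_subset _ _ _ (hI.trans (erase_subset _ _))).trans
      (Nat.prod_primeFactors_dvd n)
  · have hq' := Nat.prime_of_mem_primeFactors hq
    refine Nat.mem_primeFactors.2 ⟨hq', ?_, mul_ne_zero two_ne_zero (Nat.cast_pos.1 hR).ne'⟩
    rcases dvd_ua hI hq' (Nat.dvd_of_mem_primeFactors hq) with rfl | h3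
    · exact dvd_mul_right _ _
    · exact (Finset.dvd_prod_of_mem (fun p => p) h3).mul_left _
  · rw [← Real.log_le_log_iff hR (by positivity), hRl, hYl]
    linarith
  · have e : Real.log n = Real.log (ua n I) + 2 * Real.log (ub n I) := by
      conv_lhs => rw [← ua_ub hn ho hI]
      push_cast
      rw [Real.log_mul hA.ne' (by positivity), Real.log_pow]
      norm_num
    rw [← Real.log_le_log_iff (by positivity) (by positivity), Real.log_mul hB.ne' hR.ne',
      Real.log_mul (by positivity) hA.ne', hRl, hYl]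
    rw [Finset.sum_sub_distrib, ← Finset.mul_sum] at h2
    have := log_ua hI
    linarith

end Pool.Agent.P.MP_026e5e_nt.Fifth
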